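import Pool.Agent.H26.ChainCut

set_option autoImplicit false

open Pool.Agent.H26.ChainCut in
theorem Pool.Agent.Results.MP_79bc23_co.Width5.result :
    ∃ (P : Type) (_ : PartialOrder P), Finite P ∧
      (∀ x : P, ∃ K : Set P, IsChain (· ≤ ·) K ∧ (∀ k ∈ K, ¬ k ≤ x ∧ ¬ x ≤ k) ∧
        ∀ M : Set P, IsMaxChain (· ≤ ·) M → (M ∩ (K ∪ {x})).Nonempty) ∧
      ∃ A : Finset P, A.card = 5 ∧ IsAntichain (· ≤ ·) (A : Set P) := by
  classical
  refine ⟨P, inferInstance, inferInstance, ?_, ?_⟩
  · intro x
    refine ⟨{i | cut (Fin.val (n := 15) x) (Fin.val (n := 15) i) = true}, ?_, ?_, ?_⟩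
    · intro a ha b hb _
      exact cut_chain x a b ha hb
    · intro k hk
      exact cut_inc x k hk
    · intro M hM
      have h1 : ∀ i j : Fin 15, decide (Membership.mem (α := P) M i) = true →
          decide (Membership.mem (α := P) M j) = true →
          lo i.val j.val = true ∨ lo j.val i.val = true := by
        intro i j hi hj
        have hi := of_decide_eq_true hi
        have hj := of_decide_eq_true hj
        by_cases hij : i = j
        · subst hij; left; exact lo_refl i
        · exact hM.1 hi hj hij
      have h2 : ∀ j : Fin 15, (∀ i : Fin 15, decide (Membership.mem (α := P) M i) = true →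
          lo i.val j.val = true ∨ lo j.val i.val = true) →
          decide (Membership.mem (α := P) M j) = true := by
        intro j hj
        apply decide_eq_true
        have hc : IsChain (· ≤ ·) (insert (α := P) j M) := by
          apply hM.1.insert
          intro b hb _
          exact (hj b (decide_eq_true hb)).symm
        have := hM.2 hc (Set.subset_insert _ _)
        rw [this]; exact Set.mem_insert _ _
      obtain ⟨i, hi, h⟩ := key (fun i => decide (Membership.mem (α := P) M i)) h1 h2 x
      refine ⟨i, of_decide_eq_true hi, ?_⟩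
      rcases h with h | h
      · right; exact h
      · left; exact h
  · refine ⟨({1, 4, 5, 10, 12} : Finset (Fin 15)), by decide, ?_⟩
    have h : ∀ a ∈ ({1, 4, 5, 10, 12} : Finset (Fin 15)), ∀ b ∈ ({1, 4, 5, 10, 12} : Finset (Fin 15)),
        a ≠ b → ¬ lo a.val b.val = true := by decide +kernel
    intro a ha b hb hab
    exact h a ha b hb hab
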